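import Pool.Agent.Helper17.BR.Res
import Pool.Agent.Helper65.CL.Defs

/-! Project TOWERS, piece T1: bad places lie over bad places. -/

set_option autoImplicit false

namespace Pool.Agent.Helper8.TW

open NumberField Pool.Agent.Helper4.CB Pool.Agent.Helper65.CL

theorem not_mem_of_modEq {M : Type} [Field M] [NumberField M] {l J : ℕ} (hl : l.Prime) (hJ : 1 ≤ J)
    {p : Pl M} {f : ℕ} (hf : f ≠ 0) (h : nm p ^ f ≡ 1 [MOD l ^ J]) : (l : 𝓞 M) ∉ p.asIdeal := by
  intro hmem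
  have h1 : Ideal.absNorm p.asIdeal ∣ l ^ Module.finrank ℚ M := by
    have h2 : Ideal.span {(l : 𝓞 M)} ≤ p.asIdeal := by
      rw [Ideal.span_singleton_le_iff_mem]
      exact hmem
    have h3 := Ideal.absNorm_dvd_absNorm_of_le h2
    rw [Ideal.absNorm_span_singleton] at h3
    have h4 : (Algebra.norm ℤ (l : 𝓞 M)).natAbs = l ^ Module.finrank ℚ M := by
      have h5 : (Algebra.norm ℤ (l : 𝓞 M)) = (l : ℤ) ^ Module.finrank ℤ (𝓞 M) := by
        have := Algebra.norm_algebraMap_of_basis (RingOfIntegers.basis M) (l : ℤ)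
        rw [eq_intCast, Int.cast_natCast] at this
        rw [this, Module.finrank_eq_card_basis (RingOfIntegers.basis M)]
      rw [h5, RingOfIntegers.rank, Int.natAbs_pow, Int.natAbs_natCast]
    rwa [h4] at h3
  have h2 : Ideal.absNorm p.asIdeal ≠ 1 := by
    have := two_le_nm p
    unfold nm at this
    omega
  have h3 : l ∣ nm p := by
    obtain ⟨k, hk, h4⟩ := (Nat.dvd_prime_pow hl).1 h1
    have hk0 : k ≠ 0 := by
      rintro rfl
      exact h2 (by rw [h4, pow_zero])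
    unfold nm
    rw [h4]
    exact dvd_pow_self l hk0
  have h4 : nm p ^ f ≡ 1 [MOD l] := h.of_dvd (dvd_pow_self l (by omega))
  have h5 : nm p ^ f ≡ 0 [MOD l] := (Nat.modEq_zero_iff_dvd).2 (dvd_pow h3 hf)
  have h6 : (0 : ℕ) ≡ 1 [MOD l] := h5.symm.trans h4
  have h7 := (Nat.modEq_iff_dvd' (Nat.zero_le 1)).1 h6
  exact hl.one_lt.ne' (Nat.dvd_one.1 (by simpa using h7))

/-- T1: the bad places for `J + [L : M]` are over bad places for `J` -/
theorem bad_over {M L : Type} [Field M] [NumberField M] [Field L] [NumberField L] [Algebra M L]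
    {Λ : Finset ℕ} (hΛ : ∀ l ∈ Λ, l.Prime) (hζ : ∀ l ∈ Λ, ∃ ζ : M, IsPrimitiveRoot ζ l)
    (h4 : 2 ∈ Λ → ∃ i : M, IsPrimitiveRoot i 4) (J J' : ℕ) (hJ : J + Module.finrank M L ≤ J')
    (w : Pl L) (hw : Bad Λ J' w) (p : Pl M)
    (hp : w.asIdeal.comap (algebraMap (𝓞 M) (𝓞 L)) = p.asIdeal) : Bad Λ J p := by
  obtain ⟨l, hlΛ, hl⟩ := hw
  have hlp := hΛ l hlΛ
  have hn : 0 < Module.finrank M L := Module.finrank_pos
  have hlo : w.asIdeal.LiesOver p.asIdeal := ⟨hp.symm⟩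
  have hpm : p.asIdeal.IsMaximal := p.isMaximal
  have hf1 : nm w = nm p ^ (p.asIdeal.inertiaDeg' w.asIdeal) :=
    Ideal.absNorm_eq_pow_inertiaDeg'_of_liesOver w.asIdeal p.asIdeal p.isPrime p.ne_bot
  have hnz : NoZeroSMulDivisors (𝓞 M) (𝓞 L) := by
    refine ⟨fun {c x} h => ?_⟩
    rw [Algebra.smul_def, mul_eq_zero] at h
    rcases h with h | h
    · left
      exact (map_eq_zero_iff _ (FaithfulSMul.algebraMap_injective (𝓞 M) (𝓞 L))).1 h
    · exact Or.inr h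
  have hf2 : p.asIdeal.inertiaDeg' w.asIdeal ≤ Module.finrank M L :=
    Ideal.inertiaDeg_le_finrank (R := 𝓞 M) (S := 𝓞 L) (K := M) (L := L) w.asIdeal p.ne_bot
  have hf3 : 0 < p.asIdeal.inertiaDeg' w.asIdeal := Ideal.inertiaDeg'_pos p.asIdeal w.asIdeal
  set f := p.asIdeal.inertiaDeg' w.asIdeal with hf
  rw [hf1] at hl
  have hl' : nm p ^ f ≡ 1 [MOD l ^ (J + Module.finrank M L)] := hl.of_dvd (pow_dvd_pow l hJ)
  have hlmem : (l : 𝓞 M) ∉ p.asIdeal := not_mem_of_modEq hlp (by omega) hf3.ne' hl'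
  have hN : 1 ≤ nm p := (by norm_num : 1 ≤ 2).trans (two_le_nm p)
  refine ⟨l, hlΛ, ?_⟩
  by_contra hcon
  have hcon' : ¬ l ^ J ∣ nm p - 1 := by
    intro h
    exact hcon ((Nat.modEq_iff_dvd' hN).2 h).symm
  have h1 : l ∣ nm p - 1 := by
    obtain ⟨ζ, hζ⟩ := hζ l hlΛ
    have := Pool.Agent.Helper17.BR.dvd_absNorm_sub_one (l := l) (J := 1) hlp
      (ζ := ζ) (by rw [pow_one]; exact hζ) p.isPrime p.ne_bot hlmem
    rw [pow_one] at this
    exact this
  have h2 : l = 2 → 4 ∣ nm p - 1 := by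
    rintro rfl
    obtain ⟨i, hi⟩ := h4 hlΛ
    have := Pool.Agent.Helper17.BR.dvd_absNorm_sub_one (l := 2) (J := 2) hlp
      (ζ := i) (by norm_num; exact hi) p.isPrime p.ne_bot hlmem
    norm_num at this
    exact this
  have h3 : l ^ (J + Module.finrank M L) ∣ nm p ^ f - 1 :=
    (Nat.modEq_iff_dvd' (Nat.one_le_pow _ _ hN)).1 hl'.symm
  have h5 := Pool.Agent.Helper17.BR.pow_dvd_of_pow_dvd hlp hN h1 h2 hcon' h3
  have h6 := Nat.le_of_dvd hf3 h5
  have h7 : Module.finrank M L < l ^ Module.finrank M L := Nat.lt_pow_self hlp.one_lt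
  omega

/-- a place of small norm is not bad -/
theorem not_bad_of_lt {M : Type} [Field M] [NumberField M] {Λ : Finset ℕ}
    (hΛ : ∀ l ∈ Λ, l.Prime) {J : ℕ} {p : Pl M} (h : nm p ≤ J) : ¬ Bad Λ J p := by
  rintro ⟨l, hl, h1⟩
  have hN : 1 ≤ nm p := (by norm_num : 1 ≤ 2).trans (two_le_nm p)
  have h2 : l ^ J ∣ nm p - 1 := (Nat.modEq_iff_dvd' hN).1 h1.symm
  have h3 := Nat.le_of_dvd (by have := two_le_nm p; omega) h2
  have h4 : J < l ^ J := Nat.lt_pow_self (hΛ l hl).one_lt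
  omega

end Pool.Agent.Helper8.TW
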